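import Mathlib

namespace Pool.Agent.Results.MP_193372_co.ChiMax

/-- A veto interval: reals `l < v < r`, that is, the closed interval `[l, r]` with a veto
mark `v` in its interior. -/
structure VetoInterval where
  l : ℝ
  v : ℝ
  r : ℝ
  hlv : l < v
  hvr : v < r

/-- The adjacency condition of two veto intervals. -/
def Meets (a b : VetoInterval) : Prop :=
  (a.v < b.l ∧ b.l < a.r ∧ a.r < b.v) ∨ (b.v < a.l ∧ a.l < b.r ∧ b.r < a.v)

/-- `f` is a veto interval representation of the graph `G`: it is injective (a bijection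
onto a set of veto intervals), and distinct vertices are adjacent iff their veto intervals
satisfy the adjacency condition. -/
def IsRep {V : Type} (G : SimpleGraph V) (f : V → VetoInterval) : Prop :=
  Function.Injective f ∧ ∀ a b, a ≠ b → (G.Adj a b ↔ Meets (f a) (f b))

/-- All intervals have the same length. -/
def IsUnitFam {V : Type} (f : V → VetoInterval) : Prop :=
  ∀ a b, (f a).r - (f a).l = (f b).r - (f b).l

/-- No interval properly contains another. -/
def IsProperFam {V : Type} (f : V → VetoInterval) : Prop :=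
  ∀ a b, ¬ (Set.Icc (f a).l (f a).r ⊂ Set.Icc (f b).l (f b).r)

/-- Each veto mark is the midpoint of its interval. -/
def IsMidpointFam {V : Type} (f : V → VetoInterval) : Prop :=
  ∀ a, (f a).v = ((f a).l + (f a).r) / 2

/-- Unit veto interval graphs. -/
def IsUVI {V : Type} (G : SimpleGraph V) : Prop :=
  ∃ f : V → VetoInterval, IsRep G f ∧ IsUnitFam f

/-- Midpoint unit veto interval graphs. -/
def IsMUVI {V : Type} (G : SimpleGraph V) : Prop :=
  ∃ f : V → VetoInterval, IsRep G f ∧ IsMidpointFam f ∧ IsUnitFam f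

/-- Midpoint proper veto interval graphs. -/
def IsMPVI {V : Type} (G : SimpleGraph V) : Prop :=
  ∃ f : V → VetoInterval, IsRep G f ∧ IsMidpointFam f ∧ IsProperFam f

/-! ### Upper bound for unit representations -/

theorem meets_symm {a b : VetoInterval} (h : Meets a b) : Meets b a := by
  rcases h with h | h
  · exact Or.inr h
  · exact Or.inl h

theorem uvi_colorable {V : Type} (G : SimpleGraph V) (h : IsUVI G) : G.Colorable 4 := by
  classical
  obtain ⟨f, ⟨-, hadj⟩, hunit⟩ := h
  obtain ⟨w, hw⟩ : ∃ w : ℝ, ∀ a, (f a).r = (f a).l + w ∧ 0 < w := by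
    rcases isEmpty_or_nonempty V with hV | ⟨⟨a0⟩⟩
    · exact ⟨1, fun a => (hV.false a).elim⟩
    · refine ⟨(f a0).r - (f a0).l, fun a => ⟨?_, ?_⟩⟩
      · have := hunit a a0
        linarith
      · have h1 := (f a0).hlv
        have h2 := (f a0).hvr
        linarith
  let cell : V → ℤ := fun a => ⌊(f a).l / w⌋
  let out : V → Prop := fun a => ∃ b, (f a).v < (f b).l ∧ (f b).l < (f a).r ∧
    (f a).r < (f b).v ∧ cell b = cell a
  have key : ∀ a b : V, (f a).v < (f b).l → (f b).l < (f a).r → (f a).r < (f b).v →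
      (decide (Even (cell a)), decide (out a)) ≠ (decide (Even (cell b)), decide (out b)) := by
    intro a b h1 h2 h3 heq
    have hwpos := (hw a).2
    have hra := (hw a).1
    have hrb := (hw b).1
    have hla := (f a).hlv
    rw [Prod.mk.injEq] at heq
    obtain ⟨he, ho⟩ := heq
    have hle : cell a ≤ cell b := by
      apply Int.floor_le_floor
      apply div_le_div_of_nonneg_right _ hwpos.le
      linarith
    have hle2 : cell b ≤ cell a + 1 := by
      have : (f b).l / w ≤ (f a).l / w + 1 := by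
        rw [div_add_one hwpos.ne']
        apply div_le_div_of_nonneg_right _ hwpos.le
        linarith
      calc cell b ≤ ⌊(f a).l / w + 1⌋ := Int.floor_le_floor this
        _ = cell a + 1 := by rw [Int.floor_add_one]
    have hsame : cell b = cell a := by
      by_contra hne
      have h4 : cell b = cell a + 1 := by omega
      rw [decide_eq_decide] at he
      rw [h4, Int.even_add_one] at he
      tauto
    have hout : out a := ⟨b, h1, h2, h3, hsame⟩
    have hnout : ¬ out b := by
      rintro ⟨c, hc1, hc2, hc3, hc4⟩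
      have h5 : (f a).l / w + 1 ≤ (f c).l / w := by
        rw [div_add_one hwpos.ne']
        apply div_le_div_of_nonneg_right _ hwpos.le
        linarith
      have h6 : cell a + 1 ≤ cell c := by
        calc cell a + 1 = ⌊(f a).l / w + 1⌋ := by rw [Int.floor_add_one]
          _ ≤ cell c := Int.floor_le_floor h5
      omega
    rw [decide_eq_decide] at ho
    exact hnout (ho.mp hout)
  have col : G.Coloring (Bool × Bool) :=
    SimpleGraph.Coloring.mk (fun a => (decide (Even (cell a)), decide (out a))) (by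
      intro a b hab
      rcases (hadj a b hab.ne).mp hab with h | h
      · exact key a b h.1 h.2.1 h.2.2
      · exact (key b a h.1 h.2.1 h.2.2).symm)
  have := col.colorable
  simpa using this

/-! ### Upper bound for midpoint proper representations -/

theorem exists_level {V : Type} [Finite V] (far : V → V → Prop)
    (hirr : ∀ a, ¬ far a a) (htr : ∀ a b c, far a b → far b c → far a c) :
    ∃ level : V → ℕ, (∀ a b, far a b → level a + 1 ≤ level b) ∧
      (∀ b, level b ≠ 0 → ∃ a, far a b ∧ level b = level a + 1) := by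
  classical
  have := Fintype.ofFinite V
  have : IsTrans V far := ⟨htr⟩
  have : Std.Irrefl far := ⟨hirr⟩
  have wf : WellFounded far := Finite.wellFounded_of_trans_of_irrefl far
  let F : (b : V) → ((a : V) → far a b → ℕ) → ℕ := fun b g =>
    Finset.univ.sup (fun a => if h : far a b then g a h + 1 else 0)
  let level : V → ℕ := wf.fix F
  have hlev : ∀ b, level b = Finset.univ.sup (fun a => if far a b then level a + 1 else 0) := by
    intro b
    have := wf.fix_eq F b
    show wf.fix F b = _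
    rw [this]
    apply Finset.sup_congr rfl
    intro a _
    by_cases h : far a b
    · simp only [h, dite_true, if_true]
      rfl
    · simp only [h, dite_false, if_false]
  refine ⟨level, ?_, ?_⟩
  · intro a b hab
    rw [hlev b]
    have := Finset.le_sup (f := fun a => if far a b then level a + 1 else 0) (Finset.mem_univ a)
    simpa [hab] using this
  · intro b hb
    have hne : (Finset.univ : Finset V).Nonempty := ⟨b, Finset.mem_univ b⟩
    obtain ⟨a, -, ha⟩ := Finset.exists_mem_eq_sup Finset.univ hne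
      (fun a => if far a b then level a + 1 else 0)
    rw [← hlev b] at ha
    by_cases h : far a b
    · exact ⟨a, h, by simpa [h] using ha⟩
    · simp [h] at ha
      exact (hb ha).elim

theorem mpvi_colorable {V : Type} [Finite V] (G : SimpleGraph V) (h : IsMPVI G) :
    G.Colorable 3 := by
  obtain ⟨f, ⟨-, hadj⟩, hmid, hprop⟩ := h
  have hmono : ∀ a b, (f a).v ≤ (f b).v → (f a).l ≤ (f b).l ∧ (f a).r ≤ (f b).r := by
    intro a b hab
    have ha := hmid a
    have hb := hmid b
    have ha1 := (f a).hlv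
    have ha2 := (f a).hvr
    have hb1 := (f b).hlv
    have hb2 := (f b).hvr
    constructor
    · by_contra hlt
      push Not at hlt
      exact hprop a b (Set.Icc_ssubset_Icc_left (by linarith) hlt (by linarith))
    · by_contra hlt
      push Not at hlt
      exact hprop b a (Set.Icc_ssubset_Icc_right (by linarith) (by linarith) hlt)
  let far : V → V → Prop := fun a b => (f a).r < (f b).v ∧ (f a).v < (f b).l
  have hirr : ∀ a, ¬ far a a := by
    rintro a ⟨h1, -⟩
    have := (f a).hvr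
    linarith
  have htr : ∀ a b c, far a b → far b c → far a c := by
    rintro a b c ⟨h1, h2⟩ ⟨h3, h4⟩
    have := (f b).hvr
    have := (f b).hlv
    exact ⟨by linarith, by linarith⟩
  obtain ⟨level, hl1, hl2⟩ := exists_level far hirr htr
  have hlm : ∀ a b, (f a).v ≤ (f b).v → level a ≤ level b := by
    intro a b hab
    by_contra hlt
    push Not at hlt
    obtain ⟨c, hc1, hc2⟩ := hl2 a (by omega)
    have hcb : far c b := ⟨lt_of_lt_of_le hc1.1 hab, lt_of_lt_of_le hc1.2 (hmono a b hab).1⟩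
    have := hl1 c b hcb
    omega
  have key : ∀ a b : V, (f a).v < (f b).l → (f b).l < (f a).r → (f a).r < (f b).v →
      level a % 3 ≠ level b % 3 := by
    intro a b h1 h2 h3
    have h4 := hl1 a b ⟨h3, h1⟩
    have h5 : level b ≤ level a + 2 := by
      by_contra hlt
      push Not at hlt
      obtain ⟨c, hc1, hc2⟩ := hl2 b (by omega)
      obtain ⟨d, hd1, hd2⟩ := hl2 c (by omega)
      have hd3 : (f a).v < (f d).v := by
        by_contra hle
        push Not at hle
        have := hlm d a hle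
        omega
      have h6 := (hmono a d hd3.le).2
      have h7 := hd1.1
      have h8 := hc1.2
      linarith
    omega
  refine ⟨SimpleGraph.Coloring.mk (fun a => (⟨level a % 3, Nat.mod_lt _ (by norm_num)⟩ : Fin 3)) ?_⟩
  intro a b hab heq
  simp only [Fin.mk.injEq] at heq
  rcases (hadj a b hab.ne).mp hab with h | h
  · exact key a b h.1 h.2.1 h.2.2 heq
  · exact key b a h.1 h.2.1 h.2.2 heq.symm

theorem muvi_mpvi {V : Type} (G : SimpleGraph V) (h : IsMUVI G) : IsMPVI G := by
  obtain ⟨f, hrep, hmid, hunit⟩ := h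
  refine ⟨f, hrep, hmid, ?_⟩
  intro a b hab
  have ha1 := (f a).hlv
  have ha2 := (f a).hvr
  have hb1 := (f b).hlv
  have hb2 := (f b).hvr
  have hu := hunit a b
  obtain ⟨h1, h2⟩ := (Set.Icc_subset_Icc_iff (by linarith)).mp hab.subset
  have h3 : (f a).l = (f b).l := by linarith
  have h4 : (f a).r = (f b).r := by linarith
  rw [h3, h4] at hab
  exact (ssubset_irrefl _) hab

/-! ### The graph of a family of veto intervals -/

theorem not_meets_self (a : VetoInterval) : ¬ Meets a a := by
  have h1 := a.hlv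
  rintro (h | h)
  · have := h.1; linarith
  · have := h.1; linarith

/-- The graph represented by a family of veto intervals. -/
def graphOf {V : Type} (f : V → VetoInterval) : SimpleGraph V where
  Adj a b := Meets (f a) (f b)
  symm := ⟨fun _ _ h => meets_symm h⟩
  loopless := ⟨fun a h => not_meets_self (f a) h⟩

theorem graphOf_isRep {V : Type} (f : V → VetoInterval) (hf : Function.Injective f) :
    IsRep (graphOf f) f :=
  ⟨hf, fun _ _ _ => Iff.rfl⟩

/-! ### The five-cycle -/

def c5 (i : Fin 5) : ℤ := ![0, 12, 24, 35, 18] i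

noncomputable def fam5 (i : Fin 5) : VetoInterval where
  l := (c5 i : ℝ)
  v := (c5 i : ℝ) + 10
  r := (c5 i : ℝ) + 20
  hlv := by linarith
  hvr := by linarith

theorem fam5_inj : Function.Injective fam5 := by
  intro i j hij
  have h : ((c5 i : ℤ) : ℝ) = c5 j := congrArg VetoInterval.l hij
  have h2 : c5 i = c5 j := by exact_mod_cast h
  have key : ∀ i j : Fin 5, c5 i = c5 j → i = j := by decide
  exact key i j h2

theorem c5_isMUVI : IsMUVI (graphOf fam5) := by
  refine ⟨fam5, graphOf_isRep _ fam5_inj, ?_, ?_⟩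
  · intro a
    simp only [fam5]
    ring
  · intro a b
    simp only [fam5]
    ring

theorem no_two : ∀ x0 x1 x2 x3 x4 : Fin 2, x0 ≠ x1 → x1 ≠ x2 → x2 ≠ x3 → x3 ≠ x4 →
    x4 = x0 := by decide

theorem c5_adj (i j : Fin 5) (h : c5 i + 10 < c5 j ∧ c5 j < c5 i + 20) :
    (graphOf fam5).Adj i j := by
  left
  obtain ⟨h1, h2⟩ := h
  simp only [fam5]
  have h1' : ((c5 i : ℤ) : ℝ) + 10 < c5 j := by exact_mod_cast h1
  have h2' : ((c5 j : ℤ) : ℝ) < c5 i + 20 := by exact_mod_cast h2
  refine ⟨h1', h2', by linarith⟩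

theorem c5_not_colorable : ¬ (graphOf fam5).Colorable 2 := by
  rintro ⟨C⟩
  have h : ∀ i j, c5 i + 10 < c5 j ∧ c5 j < c5 i + 20 → C i ≠ C j :=
    fun i j hij => C.valid (c5_adj i j hij)
  exact (h 0 4 (by decide)) (no_two (C 0) (C 1) (C 2) (C 3) (C 4) (h 0 1 (by decide))
    (h 1 2 (by decide)) (h 2 3 (by decide)) (h 4 3 (by decide)).symm).symm

/-! ### A unit veto interval graph with chromatic number four -/

def wL (i : Fin 16) : ℤ := ![5, 3, 10, 12, 7, 5, 14, 12, 7, 10, 8, 1, 9, 16, 14, 3] i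

def wP (i : Fin 16) : ℤ := ![6, 0, 1, 7, 6, 0, 6, 1, 0, 7, 7, 1, 0, 6, 1, 6] i

theorem wP_bounds (i : Fin 16) : 0 ≤ wP i ∧ wP i ≤ 7 := by
  revert i; decide

noncomputable def fam16 (i : Fin 16) : VetoInterval where
  l := 2 * (wL i : ℝ)
  v := 2 * (wL i : ℝ) + (2 * (wP i : ℝ) + 1)
  r := 2 * (wL i : ℝ) + 16
  hlv := by
    have h : (0 : ℝ) ≤ wP i := by exact_mod_cast (wP_bounds i).1
    linarith
  hvr := by
    have h : (wP i : ℝ) ≤ 7 := by exact_mod_cast (wP_bounds i).2
    linarith

theorem fam16_inj : Function.Injective fam16 := by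
  intro i j hij
  have h1 : 2 * ((wL i : ℤ) : ℝ) = 2 * wL j := congrArg VetoInterval.l hij
  have h2 : 2 * ((wL i : ℤ) : ℝ) + (2 * (wP i : ℝ) + 1) = 2 * wL j + (2 * (wP j : ℝ) + 1) :=
    congrArg VetoInterval.v hij
  have h3 : wL i = wL j := by
    have : ((wL i : ℤ) : ℝ) = wL j := by linarith
    exact_mod_cast this
  have h4 : wP i = wP j := by
    have : ((wP i : ℤ) : ℝ) = wP j := by linarith
    exact_mod_cast this
  have key : ∀ i j : Fin 16, wL i = wL j → wP i = wP j → i = j := by decide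
  exact key i j h3 h4

theorem g16_isUVI : IsUVI (graphOf fam16) := by
  refine ⟨fam16, graphOf_isRep _ fam16_inj, ?_⟩
  intro a b
  simp only [fam16]
  ring

theorem g16_adj (i j : Fin 16) (h : wL i + wP i < wL j ∧ wL j < wL i + 8 ∧
    wL i + 8 ≤ wL j + wP j) : (graphOf fam16).Adj i j := by
  left
  obtain ⟨h1, h2, h3⟩ := h
  simp only [fam16]
  have h1' : ((wL i : ℤ) : ℝ) + wP i + 1 ≤ wL j := by exact_mod_cast h1
  have h2' : ((wL j : ℤ) : ℝ) < wL i + 8 := by exact_mod_cast h2
  have h3' : ((wL i : ℤ) : ℝ) + 8 ≤ wL j + wP j := by exact_mod_cast h3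
  refine ⟨by linarith, by linarith, by linarith⟩

set_option synthInstance.maxSize 100000 in
theorem no_three :
    ∀ x0 : Fin 3,
    ∀ x1 : Fin 3, x0 ≠ x1 →
    ∀ x2 : Fin 3, x1 ≠ x2 →
    ∀ x3 : Fin 3, x0 ≠ x3 → x2 ≠ x3 →
    ∀ x4 : Fin 3, x1 ≠ x4 →
    ∀ x5 : Fin 3, x3 ≠ x5 → x4 ≠ x5 →
    ∀ x6 : Fin 3, x2 ≠ x6 → x4 ≠ x6 →
    ∀ x7 : Fin 3, x0 ≠ x7 → x5 ≠ x7 → x6 ≠ x7 →
    ∀ x8 : Fin 3, x3 ≠ x8 → x6 ≠ x8 →
    ∀ x9 : Fin 3, x1 ≠ x9 → x5 ≠ x9 → x8 ≠ x9 →
    ∀ x10 : Fin 3, x1 ≠ x10 → x5 ≠ x10 → x8 ≠ x10 →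
    ∀ x11 : Fin 3, x0 ≠ x11 → x4 ≠ x11 → x10 ≠ x11 →
    ∀ x12 : Fin 3, x3 ≠ x12 → x6 ≠ x12 → x9 ≠ x12 →
    ∀ x13 : Fin 3, x2 ≠ x13 → x7 ≠ x13 → x12 ≠ x13 →
    ∀ x14 : Fin 3, x4 ≠ x14 → x8 ≠ x14 → x13 ≠ x14 →
    ∀ x15 : Fin 3, x2 ≠ x15 → x9 ≠ x15 → x11 = x15 := by decide +kernel

theorem g16_not_colorable : ¬ (graphOf fam16).Colorable 3 := by
  rintro ⟨C⟩
  have h : ∀ i j, ((wL i + wP i < wL j ∧ wL j < wL i + 8 ∧ wL i + 8 ≤ wL j + wP j) ∨
      (wL j + wP j < wL i ∧ wL i < wL j + 8 ∧ wL j + 8 ≤ wL i + wP i)) → C i ≠ C j := by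
    rintro i j (hij | hij)
    · exact C.valid (g16_adj i j hij)
    · exact (C.valid (g16_adj j i hij)).symm
  exact (h 11 15 (by decide)) (no_three
    (C 0) (C 1) (h 0 1 (by decide)) (C 2) (h 1 2 (by decide)) (C 3) (h 0 3 (by decide))
    (h 2 3 (by decide)) (C 4) (h 1 4 (by decide)) (C 5) (h 3 5 (by decide))
    (h 4 5 (by decide)) (C 6) (h 2 6 (by decide)) (h 4 6 (by decide)) (C 7)
    (h 0 7 (by decide)) (h 5 7 (by decide)) (h 6 7 (by decide)) (C 8) (h 3 8 (by decide))
    (h 6 8 (by decide)) (C 9) (h 1 9 (by decide)) (h 5 9 (by decide)) (h 8 9 (by decide))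
    (C 10) (h 1 10 (by decide)) (h 5 10 (by decide)) (h 8 10 (by decide)) (C 11)
    (h 0 11 (by decide)) (h 4 11 (by decide)) (h 10 11 (by decide)) (C 12)
    (h 3 12 (by decide)) (h 6 12 (by decide)) (h 9 12 (by decide)) (C 13)
    (h 2 13 (by decide)) (h 7 13 (by decide)) (h 12 13 (by decide)) (C 14)
    (h 4 14 (by decide)) (h 8 14 (by decide)) (h 13 14 (by decide)) (C 15)
    (h 2 15 (by decide)) (h 9 15 (by decide)))

/-! ### Conclusion -/

theorem chromaticNumber_eq {V : Type} (G : SimpleGraph V) (n : ℕ) (h1 : G.Colorable (n + 1))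
    (h2 : ¬ G.Colorable n) : G.chromaticNumber = ((n + 1 : ℕ) : ℕ∞) := by
  apply le_antisymm h1.chromaticNumber_le
  rw [SimpleGraph.le_chromaticNumber_iff_colorable]
  intro m hm
  by_contra hlt
  push Not at hlt
  exact h2 (hm.mono (by omega))

/-- The maximum chromatic number is `4` for unit veto interval graphs, `3` for midpoint unit
veto interval graphs and `3` for midpoint proper veto interval graphs. -/
theorem result :
    IsGreatest {n : ℕ∞ | ∃ (V : Type) (_ : Finite V) (G : SimpleGraph V),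
      IsUVI G ∧ G.chromaticNumber = n} 4 ∧
    IsGreatest {n : ℕ∞ | ∃ (V : Type) (_ : Finite V) (G : SimpleGraph V),
      IsMUVI G ∧ G.chromaticNumber = n} 3 ∧
    IsGreatest {n : ℕ∞ | ∃ (V : Type) (_ : Finite V) (G : SimpleGraph V),
      IsMPVI G ∧ G.chromaticNumber = n} 3 := by
  have h5 : (graphOf fam5).chromaticNumber = ((2 + 1 : ℕ) : ℕ∞) :=
    chromaticNumber_eq _ 2 (mpvi_colorable _ (muvi_mpvi _ c5_isMUVI)) c5_not_colorable
  have h16 : (graphOf fam16).chromaticNumber = ((3 + 1 : ℕ) : ℕ∞) :=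
    chromaticNumber_eq _ 3 (uvi_colorable _ g16_isUVI) g16_not_colorable
  refine ⟨⟨⟨Fin 16, inferInstance, graphOf fam16, g16_isUVI, ?_⟩, ?_⟩,
    ⟨⟨Fin 5, inferInstance, graphOf fam5, c5_isMUVI, ?_⟩, ?_⟩,
    ⟨⟨Fin 5, inferInstance, graphOf fam5, muvi_mpvi _ c5_isMUVI, ?_⟩, ?_⟩⟩
  · rw [h16]; norm_num
  · rintro n ⟨V, hV, G, hG, rfl⟩
    exact (uvi_colorable G hG).chromaticNumber_le
  · rw [h5]; norm_num
  · rintro n ⟨V, hV, G, hG, rfl⟩
    exact (mpvi_colorable G (muvi_mpvi G hG)).chromaticNumber_le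
  · rw [h5]; norm_num
  · rintro n ⟨V, hV, G, hG, rfl⟩
    exact (mpvi_colorable G hG).chromaticNumber_le

end Pool.Agent.Results.MP_193372_co.ChiMax
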